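import Mathlib
import Pool.Agent.TH456.TM.E

/-!
# Simultaneous approximation of real numbers over which a number with finite transcendence
exponents is algebraic
-/

set_option autoImplicit false

namespace Pool.Agent.Q189.SM

open Polynomial Finset

variable {ι : Type}

/-- a multiple of `y` is close to an integer whenever the multiples of the `x i` are -/
def App (x : ι → ℝ) (y : ℝ) : Prop :=
  ∃ (d E : ℕ) (C : ℝ), 1 ≤ d ∧ 0 ≤ C ∧ ∀ (Q : ℕ) (p : ι → ℤ) (δ : ℝ), 1 ≤ Q → 0 ≤ δ → δ ≤ 1 →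
    (∀ i, |(p i : ℝ) - Q * x i| ≤ Q * δ) →
    ∃ N : ℤ, |(N : ℝ) - d * (Q : ℝ) ^ E * y| ≤ C * (Q : ℝ) ^ E * δ

theorem App.raise {x : ι → ℝ} {y : ℝ} {d E : ℕ} {C : ℝ} (h : ∀ (Q : ℕ) (p : ι → ℤ) (δ : ℝ), 1 ≤ Q →
      0 ≤ δ → δ ≤ 1 → (∀ i, |(p i : ℝ) - Q * x i| ≤ Q * δ) →
      ∃ N : ℤ, |(N : ℝ) - d * (Q : ℝ) ^ E * y| ≤ C * (Q : ℝ) ^ E * δ) (e F : ℕ) :
    ∀ (Q : ℕ) (p : ι → ℤ) (δ : ℝ), 1 ≤ Q →
      0 ≤ δ → δ ≤ 1 → (∀ i, |(p i : ℝ) - Q * x i| ≤ Q * δ) →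
      ∃ N : ℤ, |(N : ℝ) - (e * d : ℕ) * (Q : ℝ) ^ (F + E) * y| ≤ (e * C) * (Q : ℝ) ^ (F + E) * δ := by
  intro Q p δ hQ hδ hδ1 hp
  obtain ⟨N, hN⟩ := h Q p δ hQ hδ hδ1 hp
  refine ⟨e * (Q : ℤ) ^ F * N, ?_⟩
  have e1 : (((e * (Q : ℤ) ^ F * N : ℤ)) : ℝ) - (e * d : ℕ) * (Q : ℝ) ^ (F + E) * y =
      (e * (Q : ℝ) ^ F) * ((N : ℝ) - d * (Q : ℝ) ^ E * y) := by
    push_cast
    rw [pow_add]
    ring
  rw [e1, abs_mul, abs_of_nonneg (by positivity)]
  calc (e * (Q : ℝ) ^ F) * |(N : ℝ) - d * (Q : ℝ) ^ E * y|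
      ≤ (e * (Q : ℝ) ^ F) * (C * (Q : ℝ) ^ E * δ) := mul_le_mul_of_nonneg_left hN (by positivity)
    _ = (e * C) * (Q : ℝ) ^ (F + E) * δ := by rw [pow_add]; ring

theorem App.rat (x : ι → ℝ) (r : ℚ) : App x (r : ℝ) := by
  refine ⟨r.den, 0, 0, r.pos, le_rfl, fun Q p δ _ _ _ _ => ⟨r.num, ?_⟩⟩
  have h : (r.den : ℝ) * r = r.num := by
    have := Rat.den_mul_eq_num r
    exact_mod_cast this
  simp [h]

theorem App.gen (x : ι → ℝ) (i : ι) : App x (x i) := by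
  refine ⟨1, 1, 1, le_rfl, zero_le_one, fun Q p δ _ _ _ hp => ⟨p i, ?_⟩⟩
  simpa using hp i

theorem App.add {x : ι → ℝ} {y z : ℝ} (hy : App x y) (hz : App x z) : App x (y + z) := by
  obtain ⟨d, E, C, hd, hC, h⟩ := hy
  obtain ⟨d', E', C', hd', hC', h'⟩ := hz
  refine ⟨d' * d, E' + E, d' * C + d * C', Nat.mul_pos hd' hd, by positivity,
    fun Q p δ hQ hδ hδ1 hp => ?_⟩
  obtain ⟨N, hN⟩ := App.raise h d' E' Q p δ hQ hδ hδ1 hp
  obtain ⟨N', hN'⟩ := App.raise h' d E Q p δ hQ hδ hδ1 hp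
  refine ⟨N + N', ?_⟩
  have e1 : ((N + N' : ℤ) : ℝ) - (d' * d : ℕ) * (Q : ℝ) ^ (E' + E) * (y + z) =
      ((N : ℝ) - (d' * d : ℕ) * (Q : ℝ) ^ (E' + E) * y) +
      ((N' : ℝ) - (d * d' : ℕ) * (Q : ℝ) ^ (E + E') * z) := by
    push_cast
    rw [add_comm E E']
    ring
  rw [e1]
  refine (abs_add_le _ _).trans ((add_le_add hN hN').trans (le_of_eq ?_))
  rw [add_comm E E']
  ring

theorem App.mul {x : ι → ℝ} {y z : ℝ} (hy : App x y) (hz : App x z) : App x (y * z) := by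
  obtain ⟨d, E, C, hd, hC, h⟩ := hy
  obtain ⟨d', E', C', hd', hC', h'⟩ := hz
  refine ⟨d * d', E + E', C * (d' * |z| + C') + d * |y| * C', Nat.mul_pos hd hd',
    by positivity, fun Q p δ hQ hδ hδ1 hp => ?_⟩
  obtain ⟨N, hN⟩ := h Q p δ hQ hδ hδ1 hp
  obtain ⟨N', hN'⟩ := h' Q p δ hQ hδ hδ1 hp
  refine ⟨N * N', ?_⟩
  have hQ0 : (0 : ℝ) ≤ Q := Nat.cast_nonneg _
  have hb : |(N' : ℝ)| ≤ (d' * |z| + C') * (Q : ℝ) ^ E' := by
    have h1 : |(N' : ℝ)| ≤ |(N' : ℝ) - d' * (Q : ℝ) ^ E' * z| + |d' * (Q : ℝ) ^ E' * z| := by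
      have := abs_add_le ((N' : ℝ) - d' * (Q : ℝ) ^ E' * z) (d' * (Q : ℝ) ^ E' * z)
      simpa using this
    have h2 : |d' * (Q : ℝ) ^ E' * z| = d' * (Q : ℝ) ^ E' * |z| := by
      rw [abs_mul, abs_of_nonneg (by positivity)]
    have h3 : C' * (Q : ℝ) ^ E' * δ ≤ C' * (Q : ℝ) ^ E' := by
      have : 0 ≤ C' * (Q : ℝ) ^ E' := by positivity
      nlinarith
    nlinarith
  have e1 : ((N * N' : ℤ) : ℝ) - (d * d' : ℕ) * (Q : ℝ) ^ (E + E') * (y * z) =
      ((N : ℝ) - d * (Q : ℝ) ^ E * y) * N' +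
      (d * (Q : ℝ) ^ E * y) * ((N' : ℝ) - d' * (Q : ℝ) ^ E' * z) := by
    push_cast
    rw [pow_add]
    ring
  rw [e1]
  refine (abs_add_le _ _).trans ?_
  rw [abs_mul, abs_mul]
  have h4 : |(N : ℝ) - d * (Q : ℝ) ^ E * y| * |(N' : ℝ)| ≤
      (C * (Q : ℝ) ^ E * δ) * ((d' * |z| + C') * (Q : ℝ) ^ E') :=
    mul_le_mul hN hb (abs_nonneg _) (by positivity)
  have h5 : |d * (Q : ℝ) ^ E * y| * |(N' : ℝ) - d' * (Q : ℝ) ^ E' * z| ≤
      (d * (Q : ℝ) ^ E * |y|) * (C' * (Q : ℝ) ^ E' * δ) := by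
    have h6 : |d * (Q : ℝ) ^ E * y| = d * (Q : ℝ) ^ E * |y| := by
      rw [abs_mul, abs_of_nonneg (by positivity)]
    rw [h6]
    exact mul_le_mul_of_nonneg_left hN' (by positivity)
  refine (add_le_add h4 h5).trans (le_of_eq ?_)
  rw [pow_add]
  ring

theorem App.adjoin {x : ι → ℝ} {y : ℝ} (hy : y ∈ Algebra.adjoin ℚ (Set.range x)) : App x y := by
  induction hy using Algebra.adjoin_induction with
  | mem y hy => obtain ⟨i, rfl⟩ := hy; exact App.gen x i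
  | algebraMap r => exact App.rat x r
  | add y z _ _ hy hz => exact hy.add hz
  | mul y z _ _ hy hz => exact hy.mul hz

/-- the same with exponents independent of the number -/
theorem App.uniform {x : ι → ℝ} (n : ℕ) (y : ℕ → ℝ) (hy : ∀ k, k < n → App x (y k)) :
    ∃ (d E : ℕ) (C : ℝ), 1 ≤ d ∧ 0 ≤ C ∧ ∀ (Q : ℕ) (p : ι → ℤ) (δ : ℝ), 1 ≤ Q → 0 ≤ δ → δ ≤ 1 →
      (∀ i, |(p i : ℝ) - Q * x i| ≤ Q * δ) → ∀ k, k < n →
      ∃ N : ℤ, |(N : ℝ) - d * (Q : ℝ) ^ E * y k| ≤ C * (Q : ℝ) ^ E * δ := by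
  induction n with
  | zero => exact ⟨1, 0, 0, le_rfl, le_rfl, fun Q p δ _ _ _ _ k hk => absurd hk (by omega)⟩
  | succ n ih =>
    obtain ⟨d, E, C, hd, hC, h⟩ := ih fun k hk => hy k (by omega)
    obtain ⟨d', E', C', hd', hC', h'⟩ := hy n (by omega)
    refine ⟨d' * d, E' + E, d' * C + d * C', Nat.mul_pos hd' hd, by positivity,
      fun Q p δ hQ hδ hδ1 hp k hk => ?_⟩
    have hnn1 : (0 : ℝ) ≤ d' * C * (Q : ℝ) ^ (E' + E) * δ := by positivity
    have hnn2 : (0 : ℝ) ≤ d * C' * (Q : ℝ) ^ (E' + E) * δ := by positivity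
    rcases Nat.lt_succ_iff_lt_or_eq.1 hk with h1 | h1
    · obtain ⟨N, hN⟩ := App.raise (fun Q p δ a b c e => h Q p δ a b c e k h1) d' E' Q p δ hQ hδ hδ1 hp
      exact ⟨N, hN.trans (by nlinarith)⟩
    · rw [h1]
      obtain ⟨N, hN⟩ := App.raise h' d E Q p δ hQ hδ hδ1 hp
      rw [add_comm E E', mul_comm d d'] at hN
      exact ⟨N, hN.trans (by nlinarith)⟩

/-- `z` has finite transcendence exponents -/
def Exponents (z : ℝ) : Prop :=
  ∀ D : ℕ, ∃ κ c : ℝ, 0 ≤ κ ∧ 0 < c ∧ ∀ P : ℤ[X], P ≠ 0 → P.natDegree ≤ D →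
    ∀ H : ℝ, 1 ≤ H → (∀ j, |(P.coeff j : ℝ)| ≤ H) → c ≤ H ^ κ * |aeval z P|

theorem exponents_of {z : ℝ} (h : Pool.Agent.TH456.TM.MeasT (z : ℂ)) : Exponents z := by
  intro D
  obtain ⟨κ, c, hκ, hc, hP⟩ := h D
  refine ⟨κ, c, hκ, hc, fun P h0 hD H hH hj => ?_⟩
  have h1 := hP P h0 hD H hH hj
  have h2 : aeval (z : ℂ) P = ((aeval z P : ℝ) : ℂ) := by
    have := Polynomial.aeval_algebraMap_apply ℂ z P
    simpa using this
  rw [h2, Complex.norm_real] at h1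
  exact h1

/-- **No simultaneous good approximations.** If `z` has finite transcendence exponents and is
algebraic over `ℚ(x_1, …, x_n)`, then the `x_i` are not simultaneously well approximable. -/
theorem joint {x : ι → ℝ} {z : ℝ} (hz : Exponents z)
    (halg : IsAlgebraic (Algebra.adjoin ℚ (Set.range x)) z) :
    ∃ κ c : ℝ, 0 ≤ κ ∧ 0 < c ∧ ∀ (Q : ℕ) (p : ι → ℤ) (δ : ℝ), 1 ≤ Q → 0 ≤ δ →
      (∀ i, |(p i : ℝ) - Q * x i| ≤ Q * δ) → c ≤ (Q : ℝ) ^ κ * δ := by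
  obtain ⟨f, hf0, hf⟩ := halg
  set n := f.natDegree with hn
  obtain ⟨d, E, C, hd, hC, h⟩ := App.uniform (x := x) (n + 1) (fun k => ((f.coeff k : ) : ℝ))
    (fun k _ => App.adjoin (f.coeff k).2)
  obtain ⟨κ, c, hκ, hc, hmeas⟩ := hz n
  -- the leading coefficient
  set a : ℝ := |((f.coeff n : Algebra.adjoin ℚ (Set.range x)) : ℝ)| with ha
  have ha0 : 0 < a := by
    rw [ha, abs_pos]
    intro h0
    apply hf0
    rw [← Polynomial.leadingCoeff_eq_zero]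
    exact Subtype.ext h0
  -- a bound for the coefficients
  set A : ℝ := ∑ k ∈ range (n + 1), |((f.coeff k : Algebra.adjoin ℚ (Set.range x)) : ℝ)| with hA
  have hA0 : 0 ≤ A := sum_nonneg fun _ _ => abs_nonneg _
  set B : ℝ := d * A + C + 1 with hB
  have hB1 : 1 ≤ B := by
    have : (0 : ℝ) ≤ d * A := by positivity
    linarith
  set Z : ℝ := ∑ k ∈ range (n + 1), |z| ^ k with hZ
  have hZ0 : 0 < Z := by
    have : (0 : ℝ) < |z| ^ 0 := by simp
    exact lt_of_lt_of_le this (single_le_sum (f := fun k => |z| ^ k) (fun _ _ => by positivity)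
      (mem_range.2 (by omega)))
  set δ0 : ℝ := min 1 (a / (2 * (C + 1))) with hδ0
  have hδ00 : 0 < δ0 := lt_min one_pos (by positivity)
  refine ⟨(E : ℝ) * κ + E, min δ0 (c / (B ^ κ * (C + 1) * Z)), by positivity,
    lt_min hδ00 (by positivity), fun Q p δ hQ hδ hp => ?_⟩
  have hQR : (1 : ℝ) ≤ Q := by exact_mod_cast hQ
  have hQ0 : (0 : ℝ) < Q := by linarith
  have hQk : (1 : ℝ) ≤ (Q : ℝ) ^ ((E : ℝ) * κ + E) := Real.one_le_rpow hQR (by positivity)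
  rcases lt_or_ge δ0 δ with hlt | hle
  · calc min δ0 (c / (B ^ κ * (C + 1) * Z)) ≤ δ0 := min_le_left _ _
      _ ≤ δ := hlt.le
      _ = 1 * δ := (one_mul _).symm
      _ ≤ (Q : ℝ) ^ ((E : ℝ) * κ + E) * δ := mul_le_mul_of_nonneg_right hQk hδ
  · have hδ1 : δ ≤ 1 := hle.trans (min_le_left _ _)
    have hex := h Q p δ hQ hδ hδ1 hp
    choose! N hN using hex
    set P : ℤ[X] := ∑ k ∈ range (n + 1), Polynomial.monomial k (N k) with hP
    have hcoef : ∀ j, P.coeff j = if j < n + 1 then N j else 0 := by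
      intro j
      rw [hP, Polynomial.finsetSum_coeff]
      simp only [Polynomial.coeff_monomial]
      rw [Finset.sum_ite_eq' (range (n + 1)) j N]
      simp only [mem_range]
    have hdeg : P.natDegree ≤ n := by
      rw [Polynomial.natDegree_le_iff_coeff_eq_zero]
      intro j hj
      rw [hcoef, if_neg (by omega)]
    have hQE : (1 : ℝ) ≤ (Q : ℝ) ^ E := one_le_pow₀ hQR
    have hle2 : ∀ k, k < n + 1 → |(N k : ℝ)| ≤ B * (Q : ℝ) ^ E := by
      intro k hk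
      have h1 := hN k hk
      have h2 : |((f.coeff k : Algebra.adjoin ℚ (Set.range x)) : ℝ)| ≤ A :=
        single_le_sum (f := fun k => |((f.coeff k : Algebra.adjoin ℚ (Set.range x)) : ℝ)|)
          (fun _ _ => abs_nonneg _) (mem_range.2 hk)
      have h3 : |(N k : ℝ)| ≤ |(N k : ℝ) - d * (Q : ℝ) ^ E * (f.coeff k : Algebra.adjoin ℚ (Set.range x))| +
          |d * (Q : ℝ) ^ E * ((f.coeff k : Algebra.adjoin ℚ (Set.range x)) : ℝ)| := by
        have := abs_add_le ((N k : ℝ) - d * (Q : ℝ) ^ E * (f.coeff k : Algebra.adjoin ℚ (Set.range x)))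
          (d * (Q : ℝ) ^ E * ((f.coeff k : Algebra.adjoin ℚ (Set.range x)) : ℝ))
        simpa using this
      rw [abs_mul (d * (Q : ℝ) ^ E), abs_of_nonneg (by positivity : (0 : ℝ) ≤ d * (Q : ℝ) ^ E)] at h3
      have h4 : C * (Q : ℝ) ^ E * δ ≤ C * (Q : ℝ) ^ E := by
        have : 0 ≤ C * (Q : ℝ) ^ E := by positivity
        nlinarith
      have h5 : d * (Q : ℝ) ^ E * |((f.coeff k : Algebra.adjoin ℚ (Set.range x)) : ℝ)| ≤
          d * (Q : ℝ) ^ E * A := mul_le_mul_of_nonneg_left h2 (by positivity)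
      rw [hB]
      nlinarith
    have hPne : P ≠ 0 := by
      intro h0
      have h1 : N n = 0 := by
        have := hcoef n
        rw [h0, Polynomial.coeff_zero, if_pos (by omega)] at this
        exact this.symm
      have h2 := hN n (by omega)
      rw [h1, Int.cast_zero, zero_sub, abs_neg, abs_mul,
        abs_of_nonneg (by positivity : (0 : ℝ) ≤ d * (Q : ℝ) ^ E)] at h2
      have h3 : δ ≤ a / (2 * (C + 1)) := hle.trans (min_le_right _ _)
      have h4 : (C + 1) * δ ≤ a / 2 := by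
        calc (C + 1) * δ ≤ (C + 1) * (a / (2 * (C + 1))) :=
              mul_le_mul_of_nonneg_left h3 (by linarith)
          _ = a / 2 := by field_simp
      have h5 : (1 : ℝ) ≤ d := by exact_mod_cast hd
      have h6 : (Q : ℝ) ^ E * a ≤ d * (Q : ℝ) ^ E * a := by
        have : (0 : ℝ) ≤ (Q : ℝ) ^ E * a := by positivity
        nlinarith
      have h7 : C * (Q : ℝ) ^ E * δ ≤ (Q : ℝ) ^ E * (a / 2) := by
        have h8 : C * δ ≤ a / 2 := by nlinarith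
        nlinarith
      have h8 : (0 : ℝ) < (Q : ℝ) ^ E * a := by positivity
      nlinarith
    have hval : |aeval z P| ≤ (C + 1) * Z * ((Q : ℝ) ^ E * δ) := by
      have e1 : aeval z P = ∑ k ∈ range (n + 1), (N k : ℝ) * z ^ k := by
        rw [hP, map_sum]
        refine sum_congr rfl fun k _ => ?_
        rw [Polynomial.aeval_monomial]
        simp
      have e2 : ∑ k ∈ range (n + 1), ((f.coeff k : Algebra.adjoin ℚ (Set.range x)) : ℝ) * z ^ k = 0 := by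
        rw [← hf, Polynomial.aeval_eq_sum_range]
        refine sum_congr rfl fun k _ => ?_
        rfl
      have e3 : aeval z P = ∑ k ∈ range (n + 1),
          ((N k : ℝ) - d * (Q : ℝ) ^ E * (f.coeff k : Algebra.adjoin ℚ (Set.range x))) * z ^ k := by
        rw [e1]
        have e4 : ∑ k ∈ range (n + 1), (d * (Q : ℝ) ^ E *
            ((f.coeff k : Algebra.adjoin ℚ (Set.range x)) : ℝ)) * z ^ k = 0 := by
          have : ∀ k ∈ range (n + 1), (d * (Q : ℝ) ^ E *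
              ((f.coeff k : Algebra.adjoin ℚ (Set.range x)) : ℝ)) * z ^ k =
              (d * (Q : ℝ) ^ E) * (((f.coeff k : Algebra.adjoin ℚ (Set.range x)) : ℝ) * z ^ k) := by
            intro k _; ring
          rw [sum_congr rfl this, ← mul_sum, e2, mul_zero]
        rw [← sub_zero (∑ k ∈ range (n + 1), (N k : ℝ) * z ^ k), ← e4, ← sum_sub_distrib]
        refine sum_congr rfl fun k _ => ?_
        ring
      rw [e3]
      refine (abs_sum_le_sum_abs _ _).trans ?_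
      calc ∑ k ∈ range (n + 1), |((N k : ℝ) - d * (Q : ℝ) ^ E *
            (f.coeff k : Algebra.adjoin ℚ (Set.range x))) * z ^ k|
          ≤ ∑ k ∈ range (n + 1), (C * (Q : ℝ) ^ E * δ) * |z| ^ k := by
            refine sum_le_sum fun k hk => ?_
            rw [abs_mul, abs_pow]
            exact mul_le_mul_of_nonneg_right (hN k (mem_range.1 hk)) (by positivity)
        _ = C * (Q : ℝ) ^ E * δ * Z := by rw [← mul_sum]
        _ ≤ (C + 1) * Z * ((Q : ℝ) ^ E * δ) := by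
            have : 0 ≤ Z * ((Q : ℝ) ^ E * δ) := by positivity
            nlinarith
    have hm := hmeas P hPne hdeg (B * (Q : ℝ) ^ E) (by nlinarith) (fun j => by
      rw [hcoef]
      split_ifs with hj
      · exact hle2 j hj
      · simp; positivity)
    have hpow : (B * (Q : ℝ) ^ E) ^ κ = B ^ κ * (Q : ℝ) ^ ((E : ℝ) * κ) := by
      rw [Real.mul_rpow (by linarith) (by positivity), ← Real.rpow_natCast, ← Real.rpow_mul hQ0.le]
    have hfin : c ≤ (B ^ κ * (C + 1) * Z) * ((Q : ℝ) ^ ((E : ℝ) * κ + E) * δ) := by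
      calc c ≤ (B * (Q : ℝ) ^ E) ^ κ * |aeval z P| := hm
        _ ≤ (B * (Q : ℝ) ^ E) ^ κ * ((C + 1) * Z * ((Q : ℝ) ^ E * δ)) :=
            mul_le_mul_of_nonneg_left hval (by positivity)
        _ = (B ^ κ * (C + 1) * Z) * ((Q : ℝ) ^ ((E : ℝ) * κ + E) * δ) := by
            rw [hpow, Real.rpow_add hQ0, Real.rpow_natCast]
            ring
    calc min δ0 (c / (B ^ κ * (C + 1) * Z)) ≤ c / (B ^ κ * (C + 1) * Z) := min_le_right _ _
      _ ≤ (Q : ℝ) ^ ((E : ℝ) * κ + E) * δ := by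
          rw [div_le_iff₀ (by positivity)]
          linarith [mul_comm (B ^ κ * (C + 1) * Z) ((Q : ℝ) ^ ((E : ℝ) * κ + E) * δ)]

end Pool.Agent.Q189.SM
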