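import Mathlib
import Pool.Agent.Q189.SM.A
import Pool.Agent.Q135.PiM.Fail

/-!
# Several machines with pushdown stores which write the digits of several numbers
-/

set_option autoImplicit false

namespace Pool.Agent.Q189.SM

open Finset Filter Pool.Agent.W979.HS

/-- the `x i` are not simultaneously well approximable -/
def NoSim {ι : Type} (x : ι → ℝ) : Prop :=
  ∃ κ c : ℝ, 0 ≤ κ ∧ 0 < c ∧ ∀ (Q : ℕ) (p : ι → ℤ) (δ : ℝ), 1 ≤ Q → 0 ≤ δ →
      (∀ i, |(p i : ℝ) - Q * x i| ≤ Q * δ) → c ≤ (Q : ℝ) ^ κ * δ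

variable {ι : Type} [Fintype ι]

theorem gap {x : ι → ℝ} (hx : NoSim x) (b : ι → ℕ) (hb : ∀ i, 2 ≤ b i) (P : ι → ℕ)
    (hP : ∀ i, 1 ≤ P i) :
    ∃ K B : ℕ, 2 ≤ K ∧ 1 ≤ B ∧ ∀ m : ℕ, ∃ k, m < k ∧ k ≤ K * m + B ∧
      ∃ i, digit (b i) (x i) k ≠ digit (b i) (x i) (k + P i) := by
  classical
  obtain ⟨κ, c, hκ, hc, hx⟩ := hx
  set W : ℕ := ∏ i, b i with hW
  set R : ℕ := ∑ i, P i with hR
  obtain ⟨K0, hK0⟩ := pow_unbounded_of_one_lt ((W : ℝ) ^ κ) (by norm_num : (1 : ℝ) < 2)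
  obtain ⟨A, hA⟩ := pow_unbounded_of_one_lt (1 / c) (by norm_num : (1 : ℝ) < 2)
  refine ⟨K0 + 2, K0 * R + A + 1, by omega, by omega, fun m => ?_⟩
  by_contra hcon
  push Not at hcon
  set j := K0 * (m + R) + A with hj
  have hrange : m + j ≤ (K0 + 2) * m + (K0 * R + A + 1) := by
    rw [hj]; nlinarith
  have hcl : ∀ i, ∃ p : ℤ, (b i : ℝ) ^ j *
      |(((b i ^ m * (b i ^ P i - 1) : ℕ) : ℝ)) * x i - p| ≤ 1 := fun i =>
    Pool.Agent.Q135.PiM.close (b i) (hb i) (x i) (P i) m j (fun k h1 h2 =>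
      hcon k h1 (h2.trans hrange) i)
  choose p hp using hcl
  set q : ι → ℕ := fun i => b i ^ m * (b i ^ P i - 1) with hq
  have hq1 : ∀ i, 1 ≤ q i := by
    intro i
    have h2 : 2 ≤ b i ^ P i := (hb i).trans (Nat.le_self_pow (by have := hP i; omega) (b i))
    exact Nat.mul_pos (pow_pos (by have := hb i; omega) m) (by omega)
  set Q : ℕ := ∏ i, q i with hQ
  have hQ1 : 1 ≤ Q := Nat.one_le_iff_ne_zero.2 (prod_ne_zero_iff.2 fun i _ => by
    have := hq1 i; omega)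
  have hQW : (Q : ℝ) ≤ (W : ℝ) ^ (m + R) := by
    have h1 : Q ≤ W ^ (m + R) := by
      rw [hQ, hW, ← prod_pow]
      refine prod_le_prod' fun i _ => ?_
      calc q i ≤ b i ^ m * b i ^ P i := Nat.mul_le_mul_left _ (Nat.sub_le _ _)
        _ = b i ^ (m + P i) := (pow_add _ _ _).symm
        _ ≤ b i ^ (m + R) := Nat.pow_le_pow_right (by have := hb i; omega)
            (Nat.add_le_add_left (single_le_sum (f := P) (fun _ _ => Nat.zero_le _) (mem_univ i)) m)
    exact_mod_cast h1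
  have h1 := hx Q (fun i => p i * ∏ l ∈ univ.erase i, (q l : ℤ)) ((1 / 2 : ℝ) ^ j) hQ1 (by positivity)
    (fun i => by
      have e1 : (Q : ℝ) = q i * ∏ l ∈ univ.erase i, (q l : ℝ) := by
        rw [hQ]
        push_cast
        rw [mul_prod_erase univ (fun l => (q l : ℝ)) (mem_univ i)]
      have hpos : (0 : ℝ) ≤ ∏ l ∈ univ.erase i, (q l : ℝ) := prod_nonneg fun _ _ => Nat.cast_nonneg _
      have e2 : ((p i * ∏ l ∈ univ.erase i, (q l : ℤ) : ℤ) : ℝ) - Q * x i =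
          (∏ l ∈ univ.erase i, (q l : ℝ)) * -((q i : ℝ) * x i - p i) := by
        rw [e1]
        push_cast
        ring
      rw [e2, abs_mul, abs_neg, abs_of_nonneg hpos, e1]
      have hbj : (2 : ℝ) ^ j ≤ (b i : ℝ) ^ j :=
        pow_le_pow_left₀ (by norm_num) (by exact_mod_cast hb i) j
      have h3 : |(q i : ℝ) * x i - p i| ≤ (1 / 2 : ℝ) ^ j := by
        have h4 : (2 : ℝ) ^ j * |(q i : ℝ) * x i - p i| ≤ 1 :=
          (mul_le_mul_of_nonneg_right hbj (abs_nonneg _)).trans (hp i)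
        rw [div_pow, one_pow, le_div_iff₀ (by positivity)]
        linarith [mul_comm ((2 : ℝ) ^ j) |(q i : ℝ) * x i - p i|]
      have h5 : (1 : ℝ) ≤ q i := by exact_mod_cast hq1 i
      calc (∏ l ∈ univ.erase i, (q l : ℝ)) * |(q i : ℝ) * x i - p i|
          ≤ (∏ l ∈ univ.erase i, (q l : ℝ)) * (1 / 2 : ℝ) ^ j := mul_le_mul_of_nonneg_left h3 hpos
        _ = 1 * (∏ l ∈ univ.erase i, (q l : ℝ)) * (1 / 2 : ℝ) ^ j := by ring
        _ ≤ q i * (∏ l ∈ univ.erase i, (q l : ℝ)) * (1 / 2 : ℝ) ^ j := by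
            apply mul_le_mul_of_nonneg_right _ (by positivity)
            exact mul_le_mul_of_nonneg_right h5 hpos)
  have hQκ : (Q : ℝ) ^ κ ≤ (2 : ℝ) ^ (K0 * (m + R)) := by
    calc (Q : ℝ) ^ κ ≤ ((W : ℝ) ^ (m + R)) ^ κ :=
          Real.rpow_le_rpow (Nat.cast_nonneg _) hQW hκ
      _ = ((W : ℝ) ^ κ) ^ (m + R) := by
          rw [← Real.rpow_natCast, ← Real.rpow_natCast, ← Real.rpow_mul (Nat.cast_nonneg _),
            ← Real.rpow_mul (Nat.cast_nonneg _), mul_comm]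
      _ ≤ ((2 : ℝ) ^ K0) ^ (m + R) := pow_le_pow_left₀ (by positivity) hK0.le _
      _ = (2 : ℝ) ^ (K0 * (m + R)) := (pow_mul _ _ _).symm
  have h2 : c ≤ (2 : ℝ) ^ (K0 * (m + R)) * (1 / 2 : ℝ) ^ j :=
    h1.trans (mul_le_mul_of_nonneg_right hQκ (by positivity))
  have h3 : (2 : ℝ) ^ (K0 * (m + R)) * (1 / 2 : ℝ) ^ j = (1 / 2 : ℝ) ^ A := by
    rw [hj, pow_add, ← mul_assoc, ← mul_pow]
    norm_num
  rw [h3, div_pow, one_pow, le_div_iff₀ (by positivity)] at h2
  rw [div_lt_iff₀ hc] at hA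
  linarith [mul_comm c ((2 : ℝ) ^ A)]

open Classical in
/-- geometric gaps give at least `c log N` points -/
theorem log_le_card (D : ℕ → Prop) (K B : ℕ) (hK : 2 ≤ K) (hB : 1 ≤ B)
    (hgap : ∀ m : ℕ, ∃ k, m < k ∧ k ≤ K * m + B ∧ D k) :
    ∃ c : ℝ, 0 < c ∧ ∃ N0 : ℕ, ∀ N : ℕ, N0 ≤ N →
      c * Real.log N ≤ (((Icc 1 N).filter D).card : ℝ) := by
  have hKR : (2 : ℝ) ≤ K := by exact_mod_cast hK
  have hlK : 0 < Real.log K := Real.log_pos (by linarith)
  have hBR : (1 : ℝ) ≤ B := by exact_mod_cast hB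
  have hlB : 0 ≤ Real.log B := Real.log_nonneg hBR
  have hev : ∀ᶠ N : ℕ in atTop, 2 * (Real.log B + Real.log K) ≤ Real.log N :=
    (Real.tendsto_log_atTop.comp tendsto_natCast_atTop_atTop).eventually_ge_atTop _
  obtain ⟨N1, hN1⟩ := eventually_atTop.1 hev
  refine ⟨1 / (2 * Real.log K), by positivity, max N1 (B + 1), fun N hN => ?_⟩
  have hNB : B + 1 ≤ N := (le_max_right _ _).trans hN
  have hNR : (0 : ℝ) < N := by exact_mod_cast (by omega : 0 < N)
  set r := Nat.log K (N / B) with hr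
  have hdiv : N / B ≠ 0 := by
    have := Nat.div_pos (by omega : B ≤ N) (by omega : 0 < B)
    omega
  have h1 : K ^ r ≤ N / B := Nat.pow_log_le_self K hdiv
  have h2 : N / B < K ^ (r + 1) := Nat.lt_pow_succ_log_self (by omega) _
  have h3 : B * K ^ r ≤ N := by
    calc B * K ^ r ≤ B * (N / B) := Nat.mul_le_mul_left _ h1
      _ ≤ N := Nat.mul_div_le N B
  have h4 : N < B * K ^ (r + 1) := by
    have := (Nat.div_lt_iff_lt_mul (by omega : 0 < B)).1 h2
    rw [mul_comm] at this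
    exact this
  obtain ⟨t, ht, hcard⟩ := Pool.Agent.Q135.PiM.count D K B hK hgap r
  have htN : t ≤ N := by omega
  have hle : r ≤ ((Icc 1 N).filter D).card := by
    refine hcard.trans (card_le_card ?_)
    intro a ha
    rw [mem_filter, mem_Icc] at ha ⊢
    exact ⟨⟨ha.1.1, ha.1.2.trans htN⟩, ha.2⟩
  have hlog : Real.log N ≤ Real.log B + (r + 1) * Real.log K := by
    have h5 : (N : ℝ) ≤ B * (K : ℝ) ^ (r + 1) := by exact_mod_cast h4.le
    calc Real.log N ≤ Real.log (B * (K : ℝ) ^ (r + 1)) := Real.log_le_log hNR h5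
      _ = Real.log B + Real.log ((K : ℝ) ^ (r + 1)) :=
          Real.log_mul (by linarith) (by positivity)
      _ = Real.log B + (r + 1) * Real.log K := by
          rw [Real.log_pow]
          push_cast
          ring
  have h6 := hN1 N ((le_max_left _ _).trans hN)
  have h7 : Real.log N / 2 ≤ r * Real.log K := by nlinarith
  calc 1 / (2 * Real.log K) * Real.log N = (Real.log N / 2) / Real.log K := by field_simp
    _ ≤ (r * Real.log K) / Real.log K := div_le_div_of_nonneg_right h7 hlK.le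
    _ = r := by field_simp
    _ ≤ _ := by exact_mod_cast hle

open Classical in
/-- few accesses outside one store: few failures of the relation `a_k = a_(k+P)`, for one `P`
which depends on the machine only -/
theorem machine_bound (M : StackMachine) (k₀ : M.ι) : ∃ P : ℕ, 1 ≤ P ∧ ∀ s : ℕ, ∃ A : ℝ, 0 < A ∧
    ∀ (b : ℕ) (x : ℝ),
      (∀ T i d : ℕ, (M.output T)[s + i]? = some d → (d : ℤ) = digit b x (i + 1)) →
      ∀ N T : ℕ, N ≤ (M.output T).length →
        (((Icc 1 N).filter (fun k => digit b x k ≠ digit b x (k + P))).card : ℝ) ≤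
          A * ((((range T).filter (M.PopOutside k₀)).card : ℝ) + 1) := by
  obtain ⟨LO, C3, hmain⟩ := (M.prog k₀).main
  refine ⟨LO.factorial, Nat.one_le_iff_ne_zero.2 (Nat.factorial_ne_zero _), fun s => ?_⟩
  set P := LO.factorial with hPdef
  have hP : 1 ≤ P := Nat.one_le_iff_ne_zero.2 (Nat.factorial_ne_zero _)
  refine ⟨(P : ℝ) + s + C3 * P, by positivity, fun b x hw N T hlen => ?_⟩
  have h1 := count_le b x s P N hP (M.output T) hlen (hw T)
  have h2 := (hmain (M.st k₀) (fun t => (M.conf t).2 k₀) (M.PopOutside k₀) (M.traj k₀) T).dfc_le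
    (dvd_fact LO)
  rw [M.written_eq k₀ T] at h2
  have hfil : ((Icc 1 N).filter (fun k : ℕ =>
        ∑ j ∈ range (P + 1), (if j = 0 then (1 : ℤ) else if j = P then -1 else 0) *
          digit b x (k + j) ≠ 0)) =
      (Icc 1 N).filter (fun k : ℕ => digit b x k ≠ digit b x (k + P)) := by
    apply filter_congr
    intro k _
    rw [rel_sum P hP (digit b x) k, sub_ne_zero]
  rw [hfil] at h1
  set E := ((range T).filter (M.PopOutside k₀)).card with hE
  have h3 : P + s + dfc P (M.output T) ≤ P + s + C3 * (E + 1) * P := by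
    rw [hPdef]
    omega
  have h4 : ((P + s + C3 * (E + 1) * P : ℕ) : ℝ) ≤ ((P : ℝ) + s + C3 * P) * (E + 1) := by
    push_cast
    have hE : (0 : ℝ) ≤ E := Nat.cast_nonneg _
    have hPs : (0 : ℝ) ≤ (P : ℝ) + s := by positivity
    nlinarith [mul_nonneg hPs hE]
  exact (Nat.cast_le.2 (h1.trans h3)).trans h4

open Classical in
/-- **Several machines.** -/
theorem machines {x : ι → ℝ} (hx : NoSim x) (b : ι → ℕ) (hb : ∀ i, 2 ≤ b i)
    (M : ι → StackMachine) (k₀ : ∀ i, (M i).ι) (s : ι → ℕ)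
    (hw : ∀ i, ∀ T j d : ℕ, ((M i).output T)[s i + j]? = some d →
      (d : ℤ) = digit (b i) (x i) (j + 1)) :
    ∃ c : ℝ, 0 < c ∧ ∃ N0 : ℕ, ∀ (N : ℕ) (T : ι → ℕ), N0 ≤ N →
      (∀ i, N ≤ ((M i).output (T i)).length) →
        c * Real.log N ≤ ∑ i, (((range (T i)).filter ((M i).PopOutside (k₀ i))).card : ℝ) := by
  have hmb := fun i => machine_bound (M i) (k₀ i)
  choose P hP hA using hmb
  have hA2 := fun i => hA i (s i)
  choose A hA0 hA using hA2
  obtain ⟨K, B, hK, hB, hgap⟩ := gap hx b hb P hP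
  obtain ⟨D, hD⟩ : ∃ D : ℕ → Prop, ∀ k, D k ↔
      ∃ i, digit (b i) (x i) k ≠ digit (b i) (x i) (k + P i) := ⟨_, fun k => Iff.rfl⟩
  obtain ⟨c, hc, N0, hcard⟩ := log_le_card D K B hK hB fun m => by
    obtain ⟨k, h1, h2, h3⟩ := hgap m
    exact ⟨k, h1, h2, (hD k).2 h3⟩
  set S : ℝ := ∑ i, A i with hS
  have hS0 : 0 ≤ S := sum_nonneg fun i _ => (hA0 i).le
  obtain ⟨c', hc', N1, hN1, habs⟩ := absorb (fun N : ℕ => Real.log N)
    (Real.tendsto_log_atTop.comp tendsto_natCast_atTop_atTop) c ((S + 1) * (Fintype.card ι + 1)) hc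
    (by positivity) N0
  refine ⟨c', hc', N1, fun N T hN hlen => habs N hN _ ((hcard N (hN1.trans hN)).trans ?_)⟩
  set E : ι → ℝ := fun i => (((range (T i)).filter ((M i).PopOutside (k₀ i))).card : ℝ) with hE
  have hE0 : ∀ i, 0 ≤ E i := fun i => Nat.cast_nonneg _
  have hsub : (Icc 1 N).filter D ⊆
      univ.biUnion (fun i => (Icc 1 N).filter
        (fun k => digit (b i) (x i) k ≠ digit (b i) (x i) (k + P i))) := by
    intro k hk
    rw [mem_filter] at hk
    obtain ⟨hk1, hk2⟩ := hk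
    obtain ⟨i, hi⟩ := (hD k).1 hk2
    rw [mem_biUnion]
    exact ⟨i, mem_univ i, mem_filter.2 ⟨hk1, hi⟩⟩
  have h1 : (((Icc 1 N).filter D).card : ℝ) ≤ ∑ i, A i * (E i + 1) := by
    calc (((Icc 1 N).filter D).card : ℝ)
        ≤ ((∑ i, ((Icc 1 N).filter (fun k => digit (b i) (x i) k ≠
            digit (b i) (x i) (k + P i))).card : ℕ) : ℝ) := by
          exact_mod_cast (card_le_card hsub).trans card_biUnion_le
      _ = ∑ i, (((Icc 1 N).filter (fun k => digit (b i) (x i) k ≠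
            digit (b i) (x i) (k + P i))).card : ℝ) := by push_cast; rfl
      _ ≤ ∑ i, A i * (E i + 1) := sum_le_sum fun i _ =>
          hA i (b i) (x i) (hw i) N (T i) (hlen i)
  refine h1.trans ?_
  have h2 : ∀ i ∈ univ, A i * (E i + 1) ≤ S * (E i + 1) := fun i _ =>
    mul_le_mul_of_nonneg_right (single_le_sum (f := A) (fun i _ => (hA0 i).le) (mem_univ i))
      (by have := hE0 i; linarith)
  have h3 : ∑ i, S * (E i + 1) = S * (∑ i, E i + Fintype.card ι) := by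
    rw [← mul_sum, sum_add_distrib]
    simp
  have h4 : 0 ≤ ∑ i, E i := sum_nonneg fun i _ => hE0 i
  have h5 : (0 : ℝ) ≤ Fintype.card ι := Nat.cast_nonneg _
  calc ∑ i, A i * (E i + 1) ≤ ∑ i, S * (E i + 1) := sum_le_sum h2
    _ = S * (∑ i, E i + Fintype.card ι) := h3
    _ ≤ (S + 1) * (Fintype.card ι + 1) * (∑ i, E i + 1) := by
        nlinarith [mul_nonneg h4 h5, mul_nonneg hS0 (mul_nonneg h4 h5)]

end Pool.Agent.Q189.SM
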